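import Pool.Agent.Helper48.OD.St

/-! Project OD (MP_b3ce06_al), module INV. -/

set_option autoImplicit false

namespace Pool.Agent.Helper28.OD

open Pool.Agent.Helper43.GD Pool.Agent.Helper48.OD

/-- the additive subgroup of the `c` such that `g` commutes with `φ (u c)` -/
private def inv_com {L A : Type} [CommRing L] [Group A] (φ : L → A)
    (hφ : ∀ a b, φ (a + b) = φ a * φ b) (g : A) (u : L) : AddSubgroup L where
  carrier := {c | Commute g (φ (u * c))}
  add_mem' := by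
    intro a b ha hb
    simp only [Set.mem_ofPred_eq] at ha hb ⊢
    rw [mul_add, hφ]
    exact ha.mul_right hb
  zero_mem' := by
    simp only [Set.mem_ofPred_eq, mul_zero]
    have h0 : φ 0 = 1 := by
      have := hφ 0 0
      rw [add_zero] at this
      exact (mul_eq_left.mp this.symm)
    rw [h0]
    exact Commute.one_right g
  neg_mem' := by
    intro a ha
    simp only [Set.mem_ofPred_eq] at ha ⊢
    have h0 : φ 0 = 1 := by
      have := hφ 0 0
      rw [add_zero] at this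
      exact (mul_eq_left.mp this.symm)
    have h1 : φ (u * a) * φ (u * -a) = 1 := by
      rw [← hφ, mul_neg, add_neg_cancel, h0]
    rw [← inv_eq_of_mul_eq_one_right h1]
    exact ha.inv_right

private theorem inv_pow_top {L : Type} [CommRing L] (s : L) (h : Gn s) (N : AddSubgroup L)
    (hN : ∀ j : ℕ, s ^ j ∈ N) (y : L) : y ∈ N := by
  have h1 : y ∈ AddSubgroup.closure (Set.range fun j : ℕ => s ^ j) := by
    refine h (AddSubgroup.closure (Set.range fun j : ℕ => s ^ j))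
      (AddSubgroup.subset_closure ⟨0, pow_zero s⟩) ?_ y
    intro z hz
    induction hz using AddSubgroup.closure_induction with
    | mem z hz =>
      obtain ⟨j, rfl⟩ := hz
      exact AddSubgroup.subset_closure ⟨j + 1, pow_succ' s j⟩
    | zero => rw [mul_zero]; exact AddSubgroup.zero_mem _
    | add a b _ _ ha hb => rw [mul_add]; exact AddSubgroup.add_mem _ ha hb
    | neg a _ ha => rw [mul_neg]; exact AddSubgroup.neg_mem _ ha
  refine (AddSubgroup.closure_le N).mpr ?_ h1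
  rintro _ ⟨j, rfl⟩
  exact hN j

theorem hINV (h1 : Pool.Agent.Helper50.AY.StSPL) : StINV := by
  intro L A _ _ Q x ι ε hfin h2 hGn hx hιx hι hι2 hε a b
  obtain ⟨t, ht⟩ := h2
  have tt : (t : L) * ((t⁻¹ : Lˣ) : L) = 1 := t.mul_inv
  rw [ht] at tt
  have eι : (ι : L) * (ι : L) = 1 := by
    have := congrArg Units.val hι2
    rwa [pow_two, Units.val_mul, Units.val_one] at this
  -- `ε² = ε`, `ε ι = ε`
  have c2 : ∀ p q : L, 2 * p = 2 * q → p = q := by
    intro p q h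
    calc p = (2 * ((t⁻¹ : Lˣ) : L)) * p := by rw [tt, one_mul]
      _ = ((t⁻¹ : Lˣ) : L) * (2 * p) := by ring
      _ = ((t⁻¹ : Lˣ) : L) * (2 * q) := by rw [h]
      _ = (2 * ((t⁻¹ : Lˣ) : L)) * q := by ring
      _ = q := by rw [tt, one_mul]
  have e1 : ε * (ι : L) = ε := by
    apply c2
    linear_combination ((ι : L) - 1) * hε + eι
  have e2 : ε * ε = ε := by
    apply c2
    linear_combination ε * hε + e1
  have e3 : (1 - ε) * (ι : L) = -(1 - ε) := by
    apply c2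
    linear_combination (- (ι : L) - 1) * hε - eι
  obtain ⟨c, hc, ec⟩ := hx.2
  obtain ⟨d, hd, ed⟩ := hιx.2
  rw [Units.val_mul] at ed
  have cc : (c : L) * ((c⁻¹ : Lˣ) : L) = 1 := c.mul_inv
  set ci : L := ((c⁻¹ : Lˣ) : L) with hci
  let τ : Lˣ := d * c⁻¹
  have hτ : τ ∈ Q.U := Q.U.mul_mem hd (Q.U.inv_mem hc)
  have eτ : (τ : L) = (d : L) * ci := by simp [τ, hci]
  have hετ : ε * (τ : L) = ε := by
    rw [eτ, ed]
    have : ε * ((1 - (ι : L) * (x : L)) * ci) = ε * ((c : L) * ci) := by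
      rw [ec]; linear_combination (-(x : L) * ci) * e1
    rw [this, cc, mul_one]
  set D : L := (1 + (x : L)) * ci with hD
  have hDτ : (1 - ε) * (τ : L) = (1 - ε) * D := by
    rw [eτ, ed, hD]
    linear_combination (-(x : L) * ci) * e3
  have hετj : ∀ j : ℕ, ε * ((τ⁻¹ ^ j : Lˣ) : L) = ε := by
    intro j
    have h4 : ∀ j : ℕ, ε * ((τ ^ j : Lˣ) : L) = ε := by
      intro j
      induction j with
      | zero => simp
      | succ j ih => rw [pow_succ, Units.val_mul, ← mul_assoc, ih, hετ]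
    have h5 : ((τ ^ j : Lˣ) : L) * ((τ⁻¹ ^ j : Lˣ) : L) = 1 := by
      rw [← Units.val_mul, inv_pow, mul_inv_cancel, Units.val_one]
    calc ε * ((τ⁻¹ ^ j : Lˣ) : L) = (ε * ((τ ^ j : Lˣ) : L)) * ((τ⁻¹ ^ j : Lˣ) : L) := by rw [h4]
      _ = ε * (((τ ^ j : Lˣ) : L) * ((τ⁻¹ ^ j : Lˣ) : L)) := by ring
      _ = ε := by rw [h5, mul_one]
  have hDj : ∀ j : ℕ, (1 - ε) * ((τ ^ j : Lˣ) : L) = (1 - ε) * D ^ j := by
    intro j
    induction j with
    | zero => simp
    | succ j ih =>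
      rw [pow_succ, Units.val_mul]
      calc (1 - ε) * (((τ ^ j : Lˣ) : L) * (τ : L))
          = ((1 - ε) * ((τ ^ j : Lˣ) : L)) * (τ : L) := by ring
        _ = D ^ j * ((1 - ε) * (τ : L)) := by rw [ih]; ring
        _ = _ := by rw [hDτ]; ring
  -- SPL
  have key : ∀ (a : Lˣ), a ∈ Q.U → ∀ j : ℕ,
      Commute (Q.E (2 * ε * (a : L))) (Q.F ((1 - ε) * (-(2 * D ^ j) * ((a⁻¹ : Lˣ) : L)))) := by
    intro a ha j
    have h3 := h1 L A Q ι (a * τ⁻¹ ^ j) 2 hι
      (Q.U.mul_mem ha (Q.U.pow_mem (Q.U.inv_mem hτ) j)) hι2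
    have f1 : ((a * τ⁻¹ ^ j : Lˣ) : L) * ∑ i ∈ Finset.range 2, (ι : L) ^ i = 2 * ε * (a : L) := by
      rw [Finset.sum_range_succ, Finset.sum_range_one, pow_zero, pow_one, Units.val_mul, ← hε]
      linear_combination (2 * (a : L)) * hετj j
    have f2 : ((ι : L) - 1) * (((a * τ⁻¹ ^ j)⁻¹ : Lˣ) : L) =
        (1 - ε) * (-(2 * D ^ j) * ((a⁻¹ : Lˣ) : L)) := by
      have g1 : (a * τ⁻¹ ^ j)⁻¹ = τ ^ j * a⁻¹ := by
        rw [mul_inv_rev, inv_pow, inv_inv]
      rw [g1, Units.val_mul]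
      linear_combination (-((τ ^ j : Lˣ) : L) * ((a⁻¹ : Lˣ) : L)) * hε
        + (-(2 * ((a⁻¹ : Lˣ) : L))) * hDj j
    rw [f1, f2] at h3
    exact h3
  -- `Gn D`
  have hGD : Gn D := by
    rw [gn_iff]
    intro R hR
    apply (gn_iff (x : L)).mp hGn
    -- `D + 1 = 2 / (1 - x)`
    have g1 : ((t * c⁻¹ : Lˣ) : L) = D + 1 := by
      rw [Units.val_mul, ht, hD, ← hci]
      have : (1 - (x : L)) * ci = 1 := by rw [← ec]; exact cc
      linear_combination this
    have g2 : ((t * c⁻¹ : Lˣ) : L) ∈ R := by rw [g1]; exact R.add_mem hR R.one_mem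
    have g3 := inv_mem R _ g2
    have g4 : (D - 1) * (((t * c⁻¹)⁻¹ : Lˣ) : L) = (x : L) := by
      have k1 : (t * c⁻¹)⁻¹ = c * t⁻¹ := by rw [mul_inv_rev, inv_inv]
      rw [k1, Units.val_mul, hD]
      have k2 : (1 - (x : L)) * ci = 1 := by rw [← ec]; exact cc
      rw [ec]
      linear_combination ((1 + (x : L)) * ((t⁻¹ : Lˣ) : L)) * k2 + (x : L) * tt
    rw [← g4]
    exact R.mul_mem (R.sub_mem hR R.one_mem) g3
  -- first step
  have step1 : ∀ (a : Lˣ), a ∈ Q.U → ∀ b : L,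
      Commute (Q.E (2 * ε * (a : L))) (Q.F ((1 - ε) * b)) := by
    intro a ha b
    have h4 := inv_pow_top D hGD
      (inv_com Q.F Q.Fadd (Q.E (2 * ε * (a : L))) ((1 - ε) * (-2 * ((a⁻¹ : Lˣ) : L))))
      (by
        intro j
        change Commute _ (Q.F ((1 - ε) * (-2 * ((a⁻¹ : Lˣ) : L)) * D ^ j))
        have h5 := key a ha j
        rw [show (1 - ε) * (-2 * ((a⁻¹ : Lˣ) : L)) * D ^ j =
          (1 - ε) * (-(2 * D ^ j) * ((a⁻¹ : Lˣ) : L)) from by ring]
        exact h5)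
      (-(b * (a : L) * ((t⁻¹ : Lˣ) : L)))
    change Commute _ (Q.F ((1 - ε) * (-2 * ((a⁻¹ : Lˣ) : L)) *
      (-(b * (a : L) * ((t⁻¹ : Lˣ) : L))))) at h4
    have h6 : (1 - ε) * (-2 * ((a⁻¹ : Lˣ) : L)) * (-(b * (a : L) * ((t⁻¹ : Lˣ) : L))) =
        (1 - ε) * b := by
      have aa : (a : L) * ((a⁻¹ : Lˣ) : L) = 1 := a.mul_inv
      linear_combination ((1 - ε) * b * ((a : L) * ((a⁻¹ : Lˣ) : L))) * tt + ((1 - ε) * b) * aa
    rw [h6] at h4
    exact h4
  -- second step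
  have h7 := inv_pow_top (x : L) hGn
    (inv_com Q.E Q.Eadd (Q.F ((1 - ε) * b)) (2 * ε))
    (by
      intro j
      change Commute _ (Q.E (2 * ε * (x : L) ^ j))
      have h8 := (step1 (x ^ j) (Q.U.pow_mem hx.1 j) b).symm
      rw [Units.val_pow_eq_pow_val] at h8
      exact h8)
    (a * ((t⁻¹ : Lˣ) : L))
  change Commute _ (Q.E (2 * ε * (a * ((t⁻¹ : Lˣ) : L)))) at h7
  have h9 : 2 * ε * (a * ((t⁻¹ : Lˣ) : L)) = ε * a := by
    linear_combination (ε * a) * tt
  rw [h9] at h7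
  exact h7.symm

end Pool.Agent.Helper28.OD
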